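import Pool.Agent.Helper49.LT.StC

/-!
Project LT, module BWX: the weighted base functional.
-/

set_option autoImplicit false

namespace Pool.Agent.Helper8.LT

open Helper49.LT Helper97.CB MeasureTheory Set Filter Metric

theorem int_ee (m : ℤ) (hm : m ≠ 0) : ∫ u in (0 : ℝ)..(2 * Real.pi), ee ((m : ℝ) * u) = 0 := by
  have hm' : ((m : ℂ) * Complex.I) ≠ 0 := mul_ne_zero (by exact_mod_cast hm) Complex.I_ne_zero
  have hd : ∀ u ∈ Set.uIcc (0 : ℝ) (2 * Real.pi),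
      HasDerivAt (fun u : ℝ => ee ((m : ℝ) * u) / ((m : ℂ) * Complex.I)) (ee ((m : ℝ) * u)) u := by
    intro u _
    have h := (hasDerivAt_ee (m : ℝ) u).div_const ((m : ℂ) * Complex.I)
    have e : (((m : ℝ) : ℂ) * Complex.I * ee ((m : ℝ) * u)) / ((m : ℂ) * Complex.I) =
        ee ((m : ℝ) * u) := by
      rw [Complex.ofReal_intCast, mul_div_assoc, mul_comm, div_mul_cancel₀ _ hm']
    rw [e] at h
    exact h
  have hc : Continuous (fun u : ℝ => ee ((m : ℝ) * u)) := by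
    have := continuous_ee
    fun_prop
  rw [intervalIntegral.integral_eq_sub_of_hasDerivAt hd (hc.intervalIntegrable _ _)]
  have h0 := ee_int m 0
  rw [zero_add] at h0
  rw [h0, sub_self]

theorem int_re (a : ℂ) (m : ℤ) (hm : m ≠ 0) :
    ∫ u in (0 : ℝ)..(2 * Real.pi), (a * ee ((m : ℝ) * u)).re = 0 := by
  have hc : Continuous (fun u : ℝ => a * ee ((m : ℝ) * u)) := by
    have := continuous_ee
    fun_prop
  have h := Complex.reCLM.intervalIntegral_comp_comm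
    (hc.intervalIntegrable (μ := volume) 0 (2 * Real.pi))
  simp only [Complex.reCLM_apply] at h
  rw [h, intervalIntegral.integral_const_mul, int_ee m hm, mul_zero, Complex.zero_re]

theorem cont_re (a : ℂ) (m : ℤ) : Continuous (fun u : ℝ => (a * ee ((m : ℝ) * u)).re) := by
  have := continuous_ee
  fun_prop

theorem cont_wW (ω : ℂ) (n : ℕ) : Continuous (wW ω n) := by
  unfold wW
  have := continuous_ee
  fun_prop

/-- product of real parts -/
theorem re_mul_re (a ω : ℂ) (m n : ℤ) (u : ℝ) :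
    (a * ee ((m : ℝ) * u)).re * (ω * ee (-(n : ℝ) * u)).re =
      1 / 2 * (a * ω * ee (((m - n : ℤ) : ℝ) * u)).re +
        1 / 2 * (a * (starRingEnd ℂ) ω * ee (((m + n : ℤ) : ℝ) * u)).re := by
  have e1 : ee (((m - n : ℤ) : ℝ) * u) = ee ((m : ℝ) * u) * ee (-(n : ℝ) * u) := by
    rw [← ee_add]; congr 1; push_cast; ring
  have e2 : ee (((m + n : ℤ) : ℝ) * u) = ee ((m : ℝ) * u) * (starRingEnd ℂ) (ee (-(n : ℝ) * u)) := by
    rw [← ee_neg, ← ee_add]; congr 1; push_cast; ring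
  rw [e1, e2]
  generalize ee ((m : ℝ) * u) = p
  generalize ee (-(n : ℝ) * u) = q
  simp only [Complex.mul_re, Complex.mul_im, Complex.conj_re, Complex.conj_im]
  ring

theorem wW_eq (ω : ℂ) (n : ℕ) (u : ℝ) : wW ω n u = 1 + (ω * ee (-(((n : ℤ)) : ℝ) * u)).re := by
  unfold wW
  push_cast
  rfl

theorem int_mul_wW (a ω : ℂ) (m : ℤ) (n : ℕ) (hm : m ≠ 0) :
    ∫ u in (0 : ℝ)..(2 * Real.pi), (a * ee ((m : ℝ) * u)).re * wW ω n u =
      1 / 2 * (∫ u in (0 : ℝ)..(2 * Real.pi), (a * ω * ee (((m - n : ℤ) : ℝ) * u)).re) +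
        1 / 2 * ∫ u in (0 : ℝ)..(2 * Real.pi),
          (a * (starRingEnd ℂ) ω * ee (((m + n : ℤ) : ℝ) * u)).re := by
  have e : ∀ u : ℝ, (a * ee ((m : ℝ) * u)).re * wW ω n u = (a * ee ((m : ℝ) * u)).re +
      (1 / 2 * (a * ω * ee (((m - n : ℤ) : ℝ) * u)).re +
        1 / 2 * (a * (starRingEnd ℂ) ω * ee (((m + n : ℤ) : ℝ) * u)).re) := by
    intro u
    rw [wW_eq, mul_add, mul_one, re_mul_re]
  rw [intervalIntegral.integral_congr (fun u _ => e u)]
  have c1 := cont_re a m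
  have c2 : Continuous fun u : ℝ => 1 / 2 * (a * ω * ee (((m - n : ℤ) : ℝ) * u)).re :=
    (cont_re (a * ω) (m - n)).const_mul (1 / 2 : ℝ)
  have c3 : Continuous fun u : ℝ =>
      1 / 2 * (a * (starRingEnd ℂ) ω * ee (((m + n : ℤ) : ℝ) * u)).re :=
    (cont_re (a * (starRingEnd ℂ) ω) (m + n)).const_mul (1 / 2 : ℝ)
  have c23 : Continuous fun u : ℝ => 1 / 2 * (a * ω * ee (((m - n : ℤ) : ℝ) * u)).re +
      1 / 2 * (a * (starRingEnd ℂ) ω * ee (((m + n : ℤ) : ℝ) * u)).re := c2.add c3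
  rw [intervalIntegral.integral_add (c1.intervalIntegrable _ _)
    (c23.intervalIntegrable _ _), int_re a m hm, zero_add,
    intervalIntegral.integral_add (c2.intervalIntegrable _ _) (c3.intervalIntegrable _ _),
    intervalIntegral.integral_const_mul, intervalIntegral.integral_const_mul]

theorem J0 (a ω : ℂ) (m : ℤ) (n : ℕ) (hm : m ≠ 0) (h1 : m - n ≠ 0) (h2 : m + n ≠ 0) :
    ∫ u in (0 : ℝ)..(2 * Real.pi), (a * ee ((m : ℝ) * u)).re * wW ω n u = 0 := by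
  rw [int_mul_wW a ω m n hm, int_re _ _ h1, int_re _ _ h2]
  ring

theorem J1 (a ω : ℂ) (m : ℤ) (n : ℕ) (hm : m ≠ 0) (h1 : m - n ≠ 0) (h2 : m + n = 0) :
    ∫ u in (0 : ℝ)..(2 * Real.pi), (a * ee ((m : ℝ) * u)).re * wW ω n u =
      Real.pi * (a * (starRingEnd ℂ) ω).re := by
  rw [int_mul_wW a ω m n hm, int_re _ _ h1, h2]
  have e : ∀ u : ℝ, (a * (starRingEnd ℂ) ω * ee (((0 : ℤ) : ℝ) * u)).re =
      (a * (starRingEnd ℂ) ω).re := by
    intro u
    rw [Int.cast_zero, zero_mul, ee_zero, mul_one]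
  rw [intervalIntegral.integral_congr (fun u _ => e u), intervalIntegral.integral_const]
  simp only [smul_eq_mul, sub_zero]
  ring

theorem Jc (c : ℝ) (ω : ℂ) (n : ℕ) (hn : n ≠ 0) :
    ∫ u in (0 : ℝ)..(2 * Real.pi), c * wW ω n u = 2 * Real.pi * c := by
  rw [intervalIntegral.integral_const_mul]
  have e : ∀ u : ℝ, wW ω n u = 1 + (ω * ee ((((-(n : ℤ) : ℤ)) : ℝ) * u)).re := by
    intro u
    rw [wW_eq]
    push_cast
    rfl
  rw [intervalIntegral.integral_congr (fun u _ => e u),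
    intervalIntegral.integral_add (intervalIntegrable_const)
      ((cont_re ω (-(n : ℤ))).intervalIntegrable _ _),
    int_re ω (-(n : ℤ)) (by simpa using hn), intervalIntegral.integral_const]
  simp only [smul_eq_mul, sub_zero]
  ring

/-- the Taylor polynomial of the weighted integrand -/
noncomputable def pol (v : ℂ × ℂ) : ℝ :=
  3 / 2 - k3 v + 2 * k5 v - 3 * (k3 v ^ 2 + s3 v ^ 2) + 18 * (k3 v * k5 v + s3 v * s5 v)
    - 15 * k5 v ^ 2 + 3 * s5 v ^ 2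

theorem rot_k (x : ℂ × ℂ) (u : ℝ) :
    k3 (rot u x) = (x.1 * ee (((-3 : ℤ) : ℝ) * u)).re ∧
    k5 (rot u x) = (x.2 * ee (((-5 : ℤ) : ℝ) * u)).re ∧
    k3 (rot u x) * k5 (rot u x) + s3 (rot u x) * s5 (rot u x) =
      (x.1 * (starRingEnd ℂ) x.2 * ee (((2 : ℤ) : ℝ) * u)).re ∧
    k5 (rot u x) ^ 2 - s5 (rot u x) ^ 2 = (x.2 ^ 2 * ee (((-10 : ℤ) : ℝ) * u)).re := by
  have e3 : ee (-3 * u) = ee (((-3 : ℤ) : ℝ) * u) := by push_cast; rfl
  have e5 : ee (-5 * u) = ee (((-5 : ℤ) : ℝ) * u) := by push_cast; rfl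
  have e2 : ee (((2 : ℤ) : ℝ) * u) = ee (-3 * u) * (starRingEnd ℂ) (ee (-5 * u)) := by
    rw [← ee_neg, ← ee_add]; congr 1; push_cast; ring
  have e10 : ee (((-10 : ℤ) : ℝ) * u) = ee (-5 * u) * ee (-5 * u) := by
    rw [← ee_add]; congr 1; push_cast; ring
  refine ⟨?_, ?_, ?_, ?_⟩
  · rw [← e3]
    change (ee (-3 * u) * x.1).re = _
    rw [mul_comm]
  · rw [← e5]
    change (ee (-5 * u) * x.2).re = _
    rw [mul_comm]
  · rw [e2]
    change (ee (-3 * u) * x.1).re * (ee (-5 * u) * x.2).re +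
      -(ee (-3 * u) * x.1).im * -(ee (-5 * u) * x.2).im = _
    generalize ee (-3 * u) = p
    generalize ee (-5 * u) = q
    simp only [Complex.mul_re, Complex.mul_im, Complex.conj_re, Complex.conj_im]
    ring
  · rw [e10]
    change (ee (-5 * u) * x.2).re ^ 2 - (-(ee (-5 * u) * x.2).im) ^ 2 = _
    generalize ee (-5 * u) = q
    simp only [Complex.mul_re, Complex.mul_im, pow_two]
    ring

theorem pol_rot (x : ℂ × ℂ) (u : ℝ) : pol (rot u x) =
    (3 / 2 - 3 * ‖x.1‖ ^ 2 - 6 * ‖x.2‖ ^ 2) + ((-x.1) * ee (((-3 : ℤ) : ℝ) * u)).re +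
      ((2 * x.2) * ee (((-5 : ℤ) : ℝ) * u)).re +
      ((18 * (x.1 * (starRingEnd ℂ) x.2)) * ee (((2 : ℤ) : ℝ) * u)).re +
      ((-9 * x.2 ^ 2) * ee (((-10 : ℤ) : ℝ) * u)).re := by
  obtain ⟨h1, h2, h3, h4⟩ := rot_k x u
  have n3 := ksq3 (rot u x)
  have n5 := ksq5 (rot u x)
  rw [norm_rot_fst] at n3
  rw [norm_rot_snd] at n5
  have f1 : ((-x.1) * ee (((-3 : ℤ) : ℝ) * u)).re = -k3 (rot u x) := by
    rw [h1, neg_mul, Complex.neg_re]
  have f2 : ((2 * x.2) * ee (((-5 : ℤ) : ℝ) * u)).re = 2 * k5 (rot u x) := by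
    rw [h2, mul_assoc]; simp
  have f3 : ((18 * (x.1 * (starRingEnd ℂ) x.2)) * ee (((2 : ℤ) : ℝ) * u)).re =
      18 * (k3 (rot u x) * k5 (rot u x) + s3 (rot u x) * s5 (rot u x)) := by
    rw [h3, mul_assoc]; simp
  have f4 : ((-9 * x.2 ^ 2) * ee (((-10 : ℤ) : ℝ) * u)).re =
      -9 * (k5 (rot u x) ^ 2 - s5 (rot u x) ^ 2) := by
    rw [h4, mul_assoc, neg_mul, Complex.neg_re]
    simp
  rw [f1, f2, f3, f4]
  unfold pol
  linear_combination (-3 : ℝ) * n3 - 6 * n5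

theorem int_pol (x : ℂ × ℂ) (ω : ℂ) (n : ℕ) (hn : n ≠ 0) :
    ∫ u in (0 : ℝ)..(2 * Real.pi), pol (rot u x) * wW ω n u =
      2 * Real.pi * (3 / 2 - 3 * ‖x.1‖ ^ 2 - 6 * ‖x.2‖ ^ 2) +
      (∫ u in (0 : ℝ)..(2 * Real.pi), ((-x.1) * ee (((-3 : ℤ) : ℝ) * u)).re * wW ω n u) +
      (∫ u in (0 : ℝ)..(2 * Real.pi), ((2 * x.2) * ee (((-5 : ℤ) : ℝ) * u)).re * wW ω n u) +
      (∫ u in (0 : ℝ)..(2 * Real.pi),
        ((18 * (x.1 * (starRingEnd ℂ) x.2)) * ee (((2 : ℤ) : ℝ) * u)).re * wW ω n u) +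
      (∫ u in (0 : ℝ)..(2 * Real.pi), ((-9 * x.2 ^ 2) * ee (((-10 : ℤ) : ℝ) * u)).re * wW ω n u) := by
  have hW := cont_wW ω n
  have c0 : Continuous fun u : ℝ => (3 / 2 - 3 * ‖x.1‖ ^ 2 - 6 * ‖x.2‖ ^ 2) * wW ω n u :=
    hW.const_mul _
  have c1 : Continuous fun u : ℝ => ((-x.1) * ee (((-3 : ℤ) : ℝ) * u)).re * wW ω n u :=
    (cont_re (-x.1) (-3)).mul hW
  have c2 : Continuous fun u : ℝ => ((2 * x.2) * ee (((-5 : ℤ) : ℝ) * u)).re * wW ω n u :=
    (cont_re (2 * x.2) (-5)).mul hW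
  have c3 : Continuous fun u : ℝ =>
      ((18 * (x.1 * (starRingEnd ℂ) x.2)) * ee (((2 : ℤ) : ℝ) * u)).re * wW ω n u :=
    (cont_re (18 * (x.1 * (starRingEnd ℂ) x.2)) 2).mul hW
  have c4 : Continuous fun u : ℝ => ((-9 * x.2 ^ 2) * ee (((-10 : ℤ) : ℝ) * u)).re * wW ω n u :=
    (cont_re (-9 * x.2 ^ 2) (-10)).mul hW
  have c01 : Continuous fun u : ℝ => (3 / 2 - 3 * ‖x.1‖ ^ 2 - 6 * ‖x.2‖ ^ 2) * wW ω n u +
      ((-x.1) * ee (((-3 : ℤ) : ℝ) * u)).re * wW ω n u := c0.add c1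
  have c012 : Continuous fun u : ℝ => (3 / 2 - 3 * ‖x.1‖ ^ 2 - 6 * ‖x.2‖ ^ 2) * wW ω n u +
      ((-x.1) * ee (((-3 : ℤ) : ℝ) * u)).re * wW ω n u +
      ((2 * x.2) * ee (((-5 : ℤ) : ℝ) * u)).re * wW ω n u := c01.add c2
  have c0123 : Continuous fun u : ℝ => (3 / 2 - 3 * ‖x.1‖ ^ 2 - 6 * ‖x.2‖ ^ 2) * wW ω n u +
      ((-x.1) * ee (((-3 : ℤ) : ℝ) * u)).re * wW ω n u +
      ((2 * x.2) * ee (((-5 : ℤ) : ℝ) * u)).re * wW ω n u +
      ((18 * (x.1 * (starRingEnd ℂ) x.2)) * ee (((2 : ℤ) : ℝ) * u)).re * wW ω n u := c012.add c3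
  rw [← Jc _ ω n hn, ← intervalIntegral.integral_add (c0.intervalIntegrable _ _)
    (c1.intervalIntegrable _ _), ← intervalIntegral.integral_add (c01.intervalIntegrable _ _)
    (c2.intervalIntegrable _ _), ← intervalIntegral.integral_add
    (c012.intervalIntegrable _ _) (c3.intervalIntegrable _ _),
    ← intervalIntegral.integral_add (c0123.intervalIntegrable _ _)
    (c4.intervalIntegrable _ _)]
  refine intervalIntegral.integral_congr fun u _ => ?_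
  rw [pol_rot]
  ring

theorem int_h0 (x : ℂ × ℂ) : ∫ t in (0 : ℝ)..(2 * Real.pi), h0 (rot t x) =
    2 * Real.pi * (1 - 2 * ‖x.1‖ ^ 2 - 4 * ‖x.2‖ ^ 2) := by
  have e : ∀ u : ℝ, h0 (rot u x) = (1 - 2 * ‖x.1‖ ^ 2 - 4 * ‖x.2‖ ^ 2) +
      ((-x.1) * ee (((-3 : ℤ) : ℝ) * u)).re + ((-3 * x.2) * ee (((-5 : ℤ) : ℝ) * u)).re +
      ((-6 * (x.1 * (starRingEnd ℂ) x.2)) * ee (((2 : ℤ) : ℝ) * u)).re := by
    intro u
    obtain ⟨h1, h2, h3, h4⟩ := rot_k x u
    have n3 := ksq3 (rot u x)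
    have n5 := ksq5 (rot u x)
    rw [norm_rot_fst] at n3
    rw [norm_rot_snd] at n5
    have f1 : ((-x.1) * ee (((-3 : ℤ) : ℝ) * u)).re = -k3 (rot u x) := by
      rw [h1, neg_mul, Complex.neg_re]
    have f2 : ((-3 * x.2) * ee (((-5 : ℤ) : ℝ) * u)).re = -3 * k5 (rot u x) := by
      rw [h2, mul_assoc, neg_mul, Complex.neg_re]; simp
    have f3 : ((-6 * (x.1 * (starRingEnd ℂ) x.2)) * ee (((2 : ℤ) : ℝ) * u)).re =
        -6 * (k3 (rot u x) * k5 (rot u x) + s3 (rot u x) * s5 (rot u x)) := by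
      rw [h3, mul_assoc, neg_mul, Complex.neg_re]; simp
    rw [f1, f2, f3]
    unfold h0
    linear_combination (-2 : ℝ) * n3 - 4 * n5
  have c1 : Continuous fun u : ℝ => ((-x.1) * ee (((-3 : ℤ) : ℝ) * u)).re := cont_re (-x.1) (-3)
  have c2 : Continuous fun u : ℝ => ((-3 * x.2) * ee (((-5 : ℤ) : ℝ) * u)).re :=
    cont_re (-3 * x.2) (-5)
  have c3 : Continuous fun u : ℝ =>
      ((-6 * (x.1 * (starRingEnd ℂ) x.2)) * ee (((2 : ℤ) : ℝ) * u)).re :=
    cont_re (-6 * (x.1 * (starRingEnd ℂ) x.2)) 2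
  have c0 : Continuous fun _ : ℝ => (1 - 2 * ‖x.1‖ ^ 2 - 4 * ‖x.2‖ ^ 2 : ℝ) := continuous_const
  have c01 : Continuous fun u : ℝ => (1 - 2 * ‖x.1‖ ^ 2 - 4 * ‖x.2‖ ^ 2 : ℝ) +
      ((-x.1) * ee (((-3 : ℤ) : ℝ) * u)).re := c0.add c1
  have c012 : Continuous fun u : ℝ => (1 - 2 * ‖x.1‖ ^ 2 - 4 * ‖x.2‖ ^ 2 : ℝ) +
      ((-x.1) * ee (((-3 : ℤ) : ℝ) * u)).re + ((-3 * x.2) * ee (((-5 : ℤ) : ℝ) * u)).re :=
    c01.add c2
  rw [intervalIntegral.integral_congr (fun u _ => e u),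
    intervalIntegral.integral_add (c012.intervalIntegrable _ _)
      (c3.intervalIntegrable _ _),
    intervalIntegral.integral_add (c01.intervalIntegrable _ _) (c2.intervalIntegrable _ _),
    intervalIntegral.integral_add (c0.intervalIntegrable _ _) (c1.intervalIntegrable _ _),
    int_re _ _ (by norm_num), int_re _ _ (by norm_num), int_re _ _ (by norm_num),
    intervalIntegral.integral_const]
  simp only [smul_eq_mul, sub_zero]
  ring

theorem re_zh (v : ℂ × ℂ) (s : ℝ) : (zh v s).re = Real.cos s + k3 v * Real.cos (2 * s) -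
    s3 v * Real.sin (2 * s) + k5 v * Real.cos (4 * s) - s5 v * Real.sin (4 * s) := by
  unfold zh k3 s3 k5 s5
  rw [Complex.add_re, Complex.add_re, Complex.mul_re, Complex.mul_re, ee_re, ee_re, ee_re, ee_im,
    ee_im, show -2 * s = -(2 * s) by ring, show -4 * s = -(4 * s) by ring, Real.cos_neg,
    Real.cos_neg, Real.sin_neg, Real.sin_neg]
  ring

theorem cos_sub_one (y : ℝ) : |Real.cos y - 1| ≤ y ^ 2 / 2 := by
  rw [abs_le]
  constructor
  · linarith [Real.one_sub_sq_div_two_le_cos (x := y)]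
  · linarith [Real.cos_le_one y, sq_nonneg y]

theorem sin_sub (y : ℝ) (hy : |y| ≤ 1) : |Real.sin y - y| ≤ |y| ^ 3 := by
  have h := Real.sin_bound hy
  have h1 : |y| ^ 5 ≤ |y| ^ 3 := pow_le_pow_of_le_one (abs_nonneg y) hy (by norm_num)
  have h2 : Real.sin y - y = (Real.sin y - (y - y ^ 3 / 6)) + -(y ^ 3 / 6) := by ring
  rw [h2]
  refine (abs_add_le _ _).trans ?_
  rw [abs_neg, abs_div, abs_pow, abs_of_pos (by norm_num : (0 : ℝ) < 6)]
  have h3 : 0 ≤ |y| ^ 3 := by positivity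
  linarith

theorem tip_bound (v : ℂ × ℂ) (hv : ‖v‖ ≤ 1 / 24) :
    |(zh v (st v)).re - (1 + k3 v + k5 v + 2 * (s3 v + 2 * s5 v) ^ 2)| ≤ 16128 * ‖v‖ ^ 3 := by
  have a3 : |s3 v| ≤ ‖v‖ := (abs_s3 v).trans (fst_le v)
  have a5 : |s5 v| ≤ ‖v‖ := (abs_s5 v).trans (snd_le v)
  have b3 : |k3 v| ≤ ‖v‖ := (abs_k3 v).trans (fst_le v)
  have b5 : |k5 v| ≤ ‖v‖ := (abs_k5 v).trans (snd_le v)
  obtain ⟨N, hN⟩ : ∃ N, N = ‖v‖ := ⟨_, rfl⟩
  rw [← hN] at a3 a5 b3 b5 hv ⊢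
  have hN0 : 0 ≤ N := by rw [hN]; exact norm_nonneg v
  obtain ⟨σ, hσ⟩ : ∃ σ, σ = st v := ⟨_, rfl⟩
  have hσd : σ = -2 * s3 v - 4 * s5 v := hσ
  have hσN : |σ| ≤ 6 * N := by
    rw [hσd, abs_le]
    rw [abs_le] at a3 a5
    constructor <;> linarith [a3.1, a3.2, a5.1, a5.2]
  rw [← hσ, re_zh]
  have hσ3 : |σ| ^ 3 ≤ 216 * N ^ 3 := by
    calc |σ| ^ 3 ≤ (6 * N) ^ 3 := pow_le_pow_left₀ (abs_nonneg _) hσN 3
      _ = 216 * N ^ 3 := by ring
  have hσ2 : σ ^ 2 ≤ 36 * N ^ 2 := by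
    calc σ ^ 2 = |σ| ^ 2 := (sq_abs σ).symm
      _ ≤ (6 * N) ^ 2 := pow_le_pow_left₀ (abs_nonneg _) hσN 2
      _ = 36 * N ^ 2 := by ring
  -- the five errors
  have e0 : |Real.cos σ - (1 - σ ^ 2 / 2)| ≤ 216 * N ^ 3 := by
    have h := Real.cos_bound (x := σ) (by linarith)
    have h1 : |σ| ^ 4 ≤ |σ| ^ 3 := by
      rw [pow_succ]
      exact mul_le_of_le_one_right (by positivity) (by linarith)
    have h3 : 0 ≤ |σ| ^ 3 := by positivity
    linarith
  have e1 : |k3 v * (Real.cos (2 * σ) - 1)| ≤ 72 * N ^ 3 := by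
    rw [abs_mul]
    have h := cos_sub_one (2 * σ)
    calc |k3 v| * |Real.cos (2 * σ) - 1| ≤ N * (72 * N ^ 2) :=
          mul_le_mul b3 (h.trans (by linarith)) (abs_nonneg _) hN0
      _ = 72 * N ^ 3 := by ring
  have e3 : |k5 v * (Real.cos (4 * σ) - 1)| ≤ 288 * N ^ 3 := by
    rw [abs_mul]
    have h := cos_sub_one (4 * σ)
    calc |k5 v| * |Real.cos (4 * σ) - 1| ≤ N * (288 * N ^ 2) :=
          mul_le_mul b5 (h.trans (by linarith)) (abs_nonneg _) hN0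
      _ = 288 * N ^ 3 := by ring
  have e2 : |s3 v * (Real.sin (2 * σ) - 2 * σ)| ≤ 1728 * N ^ 3 := by
    rw [abs_mul]
    have h0 : |2 * σ| = 2 * |σ| := by rw [abs_mul, abs_of_pos (by norm_num : (0 : ℝ) < 2)]
    have h := sin_sub (2 * σ) (by rw [h0]; linarith)
    rw [h0, mul_pow] at h
    calc |s3 v| * |Real.sin (2 * σ) - 2 * σ| ≤ 1 * (1728 * N ^ 3) :=
          mul_le_mul (by linarith) (h.trans (by linarith)) (abs_nonneg _) (by norm_num)
      _ = 1728 * N ^ 3 := by ring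
  have e4 : |s5 v * (Real.sin (4 * σ) - 4 * σ)| ≤ 13824 * N ^ 3 := by
    rw [abs_mul]
    have h0 : |4 * σ| = 4 * |σ| := by rw [abs_mul, abs_of_pos (by norm_num : (0 : ℝ) < 4)]
    have h := sin_sub (4 * σ) (by rw [h0]; linarith)
    rw [h0, mul_pow] at h
    calc |s5 v| * |Real.sin (4 * σ) - 4 * σ| ≤ 1 * (13824 * N ^ 3) :=
          mul_le_mul (by linarith) (h.trans (by linarith)) (abs_nonneg _) (by norm_num)
      _ = 13824 * N ^ 3 := by ring
  have key : Real.cos σ + k3 v * Real.cos (2 * σ) - s3 v * Real.sin (2 * σ) +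
      k5 v * Real.cos (4 * σ) - s5 v * Real.sin (4 * σ) -
      (1 + k3 v + k5 v + 2 * (s3 v + 2 * s5 v) ^ 2) =
      (Real.cos σ - (1 - σ ^ 2 / 2)) + k3 v * (Real.cos (2 * σ) - 1) -
      s3 v * (Real.sin (2 * σ) - 2 * σ) + k5 v * (Real.cos (4 * σ) - 1) -
      s5 v * (Real.sin (4 * σ) - 4 * σ) := by
    rw [hσd]
    ring
  rw [key]
  rw [abs_le] at e0 e1 e2 e3 e4 ⊢
  constructor <;> linarith [e0.1, e0.2, e1.1, e1.2, e2.1, e2.2, e3.1, e3.2, e4.1, e4.2]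

theorem hBWX (h : StJet) : StBwx := by
  intro r sp sm hsp
  obtain ⟨C, r₁, hC, hr₁, hr₁r, hjet⟩ := h r sp sm hsp
  refine ⟨(16128 + C) * 2 * (2 * Real.pi), min (r₁ / 2) (1 / 24), by positivity,
    lt_min (by linarith) (by norm_num), ?_⟩
  intro x ω hx hω
  have hx1 : ‖x‖ < r₁ := by
    have := hx.trans (min_le_left _ _)
    linarith
  have hx2 : ‖x‖ ≤ 1 / 24 := hx.trans (min_le_right _ _)
  have hx0 := norm_nonneg x
  -- norm of the pair
  have hnorm : ∀ u : ℝ, ‖((rot u x, (0 : ℝ × ℝ)) : (ℂ × ℂ) × (ℝ × ℝ))‖ = ‖x‖ := by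
    intro u
    rw [Prod.norm_mk, norm_zero, norm_rot]
    exact max_eq_left hx0
  have hball : ∀ u : ℝ, ((rot u x, (0 : ℝ × ℝ)) : (ℂ × ℂ) × (ℝ × ℝ)) ∈
      ball (0 : (ℂ × ℂ) × (ℝ × ℝ)) r₁ := by
    intro u
    rw [mem_ball_zero_iff, hnorm u]
    exact hx1
  -- pointwise error
  have herr : ∀ u : ℝ, |((zh (rot u x) (st (rot u x))).re + cc sp (rot u x, 0)) - pol (rot u x)| ≤
      (16128 + C) * ‖x‖ ^ 3 := by
    intro u
    have h1 := tip_bound (rot u x) (by rw [norm_rot]; exact hx2)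
    have h2 := (hjet _ (hball u)).2.2
    rw [hnorm] at h2
    rw [norm_rot] at h1
    have h3 : tcc (rot u x, 0) = 1 / 2 - 2 * k3 (rot u x) + k5 (rot u x)
        - 3 * k3 (rot u x) ^ 2 - 5 * s3 (rot u x) ^ 2 + 18 * (k3 (rot u x) * k5 (rot u x))
        + 10 * (s3 (rot u x) * s5 (rot u x)) - 15 * k5 (rot u x) ^ 2 - 5 * s5 (rot u x) ^ 2 := by
      simp [tcc]
    rw [h3] at h2
    unfold pol
    rw [abs_le] at h1 h2 ⊢
    constructor <;> nlinarith [h1.1, h1.2, h2.1, h2.2]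
  -- continuity
  have hW := cont_wW ω
  have hrot := continuous_rot x
  have hpair : Continuous fun u : ℝ => ((rot u x, (0 : ℝ × ℝ)) : (ℂ × ℂ) × (ℝ × ℝ)) :=
    hrot.prodMk continuous_const
  have hspc : Continuous fun u : ℝ => sp (rot u x, 0) := by
    rw [continuous_iff_continuousAt]
    intro u
    have h1 : ContinuousAt sp (rot u x, 0) := by
      refine hsp.cp.continuousOn.continuousAt ?_
      exact isOpen_ball.mem_nhds (ball_subset_ball hr₁r (hball u))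
    exact ContinuousAt.comp (g := sp) (f := fun u : ℝ =>
      ((rot u x, (0 : ℝ × ℝ)) : (ℂ × ℂ) × (ℝ × ℝ))) h1 hpair.continuousAt
  have hzh : Continuous fun p : (ℂ × ℂ) × ℝ => zh p.1 p.2 := contDiff_zh.continuous
  have hcc : Continuous fun u : ℝ => cc sp (rot u x, 0) := by
    unfold cc
    have h1 : Continuous fun u : ℝ => zh (rot u x) (sp (rot u x, 0)) :=
      hzh.comp (hrot.prodMk hspc)
    have h2 : Continuous fun u : ℝ => ((1 + (0 : ℝ) : ℝ) : ℂ) * zh (rot u x) (sp (rot u x, 0)) :=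
      continuous_const.mul h1
    exact Complex.continuous_re.comp h2
  have hf : Continuous fun u : ℝ => (rot u x).1 := continuous_fst.comp hrot
  have hs : Continuous fun u : ℝ => (rot u x).2 := continuous_snd.comp hrot
  have hk3 : Continuous fun u : ℝ => k3 (rot u x) := Complex.continuous_re.comp hf
  have hs3 : Continuous fun u : ℝ => s3 (rot u x) := (Complex.continuous_im.comp hf).neg
  have hk5 : Continuous fun u : ℝ => k5 (rot u x) := Complex.continuous_re.comp hs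
  have hs5 : Continuous fun u : ℝ => s5 (rot u x) := (Complex.continuous_im.comp hs).neg
  have hst : Continuous fun u : ℝ => st (rot u x) := by
    unfold st
    exact (hs3.const_mul (-2)).sub (hs5.const_mul 4)
  have htip : Continuous fun u : ℝ => (zh (rot u x) (st (rot u x))).re :=
    Complex.continuous_re.comp (hzh.comp (hrot.prodMk hst))
  have hpol : Continuous fun u : ℝ => pol (rot u x) := by
    unfold pol
    exact ((((((continuous_const.sub hk3).add (hk5.const_mul 2)).sub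
      (((hk3.pow 2).add (hs3.pow 2)).const_mul 3)).add
      (((hk3.mul hk5).add (hs3.mul hs5)).const_mul 18)).sub ((hk5.pow 2).const_mul 15)).add
      ((hs5.pow 2).const_mul 3))
  -- splitting
  have split : ∀ n : ℕ, n ≠ 0 → |bW sp x ω n - ((∫ u in (0 : ℝ)..(2 * Real.pi),
      pol (rot u x) * wW ω n u) - 3 / 2 * ∫ t in (0 : ℝ)..(2 * Real.pi), h0 (rot t x))| ≤
      (16128 + C) * 2 * (2 * Real.pi) * ‖x‖ ^ 3 := by
    intro n _
    have e1 : bW sp x ω n - ((∫ u in (0 : ℝ)..(2 * Real.pi), pol (rot u x) * wW ω n u) -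
        3 / 2 * ∫ t in (0 : ℝ)..(2 * Real.pi), h0 (rot t x)) =
        ∫ u in (0 : ℝ)..(2 * Real.pi),
          (((zh (rot u x) (st (rot u x))).re + cc sp (rot u x, 0)) - pol (rot u x)) * wW ω n u := by
      unfold bW
      have c1 : Continuous fun u : ℝ =>
          ((zh (rot u x) (st (rot u x))).re + cc sp (rot u x, 0)) * wW ω n u :=
        (htip.add hcc).mul (hW n)
      have c2 : Continuous fun u : ℝ => pol (rot u x) * wW ω n u := hpol.mul (hW n)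
      have e2 := intervalIntegral.integral_sub (c1.intervalIntegrable (μ := volume) 0 (2 * Real.pi))
        (c2.intervalIntegrable 0 (2 * Real.pi))
      have e3 : (∫ u in (0 : ℝ)..(2 * Real.pi),
          (((zh (rot u x) (st (rot u x))).re + cc sp (rot u x, 0)) - pol (rot u x)) * wW ω n u) =
          ∫ u in (0 : ℝ)..(2 * Real.pi),
          (((zh (rot u x) (st (rot u x))).re + cc sp (rot u x, 0)) * wW ω n u -
            pol (rot u x) * wW ω n u) := by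
        refine intervalIntegral.integral_congr fun u _ => ?_
        ring
      rw [e3, e2]
      ring
    rw [e1]
    have hb : ∀ u ∈ Set.uIoc (0 : ℝ) (2 * Real.pi),
        ‖(((zh (rot u x) (st (rot u x))).re + cc sp (rot u x, 0)) - pol (rot u x)) * wW ω n u‖ ≤
        (16128 + C) * ‖x‖ ^ 3 * 2 := by
      intro u _
      rw [norm_mul, Real.norm_eq_abs, Real.norm_eq_abs]
      have hw2 : |wW ω n u| ≤ 2 := by
        unfold wW
        have h1 : |(ω * ee (-(n : ℝ) * u)).re| ≤ 1 := by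
          refine (Complex.abs_re_le_norm _).trans ?_
          rw [norm_mul, norm_ee, mul_one]
          exact hω
        rw [abs_le] at h1 ⊢
        constructor <;> linarith [h1.1, h1.2]
      exact mul_le_mul (herr u) hw2 (abs_nonneg _) (by positivity)
    have h2 := intervalIntegral.norm_integral_le_of_norm_le_const hb
    rw [Real.norm_eq_abs, sub_zero, abs_of_pos (by positivity : (0 : ℝ) < 2 * Real.pi)] at h2
    refine h2.trans (le_of_eq ?_)
    ring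
  constructor
  · have h6 := split 6 (by norm_num)
    rw [int_pol x ω 6 (by norm_num), int_h0, J0 _ _ _ _ (by norm_num) (by norm_num) (by norm_num),
      J0 _ _ _ _ (by norm_num) (by norm_num) (by norm_num),
      J0 _ _ _ _ (by norm_num) (by norm_num) (by norm_num),
      J0 _ _ _ _ (by norm_num) (by norm_num) (by norm_num)] at h6
    have e : bW sp x ω 6 - (2 * Real.pi * (3 / 2 - 3 * ‖x.1‖ ^ 2 - 6 * ‖x.2‖ ^ 2) + 0 + 0 + 0 + 0 -
        3 / 2 * (2 * Real.pi * (1 - 2 * ‖x.1‖ ^ 2 - 4 * ‖x.2‖ ^ 2))) = bW sp x ω 6 := by ring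
    rw [e] at h6
    exact h6
  · have h10 := split 10 (by norm_num)
    rw [int_pol x ω 10 (by norm_num), int_h0, J0 _ _ _ _ (by norm_num) (by norm_num) (by norm_num),
      J0 _ _ _ _ (by norm_num) (by norm_num) (by norm_num),
      J0 _ _ _ _ (by norm_num) (by norm_num) (by norm_num),
      J1 _ _ _ _ (by norm_num) (by norm_num) (by norm_num)] at h10
    have f : (-9 * x.2 ^ 2 * (starRingEnd ℂ) ω).re = -9 * (x.2 ^ 2 * (starRingEnd ℂ) ω).re := by
      rw [mul_assoc, neg_mul, Complex.neg_re]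
      simp
    rw [f] at h10
    have e : bW sp x ω 10 - (2 * Real.pi * (3 / 2 - 3 * ‖x.1‖ ^ 2 - 6 * ‖x.2‖ ^ 2) + 0 + 0 + 0 +
        Real.pi * (-9 * (x.2 ^ 2 * (starRingEnd ℂ) ω).re) -
        3 / 2 * (2 * Real.pi * (1 - 2 * ‖x.1‖ ^ 2 - 4 * ‖x.2‖ ^ 2))) =
        bW sp x ω 10 + 9 * Real.pi * (x.2 ^ 2 * (starRingEnd ℂ) ω).re := by ring
    rw [e] at h10
    exact h10

end Pool.Agent.Helper8.LT
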